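import Pool.Agent.H.MP_701cec_lc.Np

/-!
Recognising the graphs of clique-width at most `c` is NP-complete for each fixed `c ≥ 4245`.
-/

namespace Pool.Agent.Results.MP_701cec_lc.FixedCliqueWidthNPComplete

open Pool.Agent.H.MP_701cec_lc

/-- For each fixed `c ≥ 4245` the decision problem `CW c` (given a graph by its adjacency matrix,
is its clique-width at most `c`?) is NP-complete: it is in NP, and each language in NP over a
finite alphabet reduces to it by a many-one reduction computable in polynomial time. -/
theorem result : ∀ c : ℕ, 4245 ≤ c → NPComplete (CW c) := CW_complete

end Pool.Agent.Results.MP_701cec_lc.FixedCliqueWidthNPComplete
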