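import Pool.Agent.CWR.Main

/-!
# MP_701cec_lc, partial answer to Q1

The clique-width can be raised by exactly one by an explicit construction of linear size, so the
recognition of clique-width at most c reduces to the recognition of clique-width at most d for
2 ≤ c ≤ d. The definitions are in Pool.Agent.CWR.Defs.
-/

namespace Pool.Agent.Results.MP_701cec_lc.RaiseByOne

open Pool.Agent.CWR

/-- Let c ≥ 2 and N ≥ 2c + 3. Take N disjoint copies of a connected graph G, attach a pendant
vertex to every vertex, and add a new vertex adjacent to exactly the pendant vertices. The graph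
obtained has clique-width at most c + 1 if and only if G has clique-width at most c. The same holds
for an arbitrary graph G if a universal vertex is first added to G. So CW_c reduces to CW_d by
projections of linear size for 2 ≤ c ≤ d. -/
theorem result :
    (∀ c : ℕ, 2 ≤ c → ∀ (V : Type) [Nonempty V] (G : SimpleGraph V), G.Connected →
      ∀ N : ℕ, 2 * c + 3 ≤ N → (CWle (pendantSum G N) (c + 1) ↔ CWle G c)) ∧
    (∀ c : ℕ, 2 ≤ c → ∀ (V : Type) [Nonempty V] (G : SimpleGraph V),
      ∀ N : ℕ, 2 * c + 3 ≤ N → (CWle (pendantSum (addUniversal G) N) (c + 1) ↔ CWle G c)) ∧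
    ∀ c d : ℕ, 2 ≤ c → c ≤ d → LinearProjection (CW c) (CW d) :=
  ⟨fun _ hc _ _ _ hG _ hN => pendantSum_iff hG hc hN, fun _ hc _ _ G _ hN => raise_iff G hc hN,
    fun _ _ hc hcd => proj_le hc hcd⟩

end Pool.Agent.Results.MP_701cec_lc.RaiseByOne
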